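import Pool.Agent.Q50.HK.Defs

/-!
# Families of hyperkähler manifolds and Lagrangian fibrations
-/

set_option autoImplicit false

universe u

namespace Pool.Agent.Q34.HF

open Pool.Agent.Q50.HK

/-- A component of the moduli space of marked hyperkähler manifolds (see `Moduli`), with: `mon` the
monodromy group (parallel transport operators); `Fib M` the Lagrangian fibrations `π : M → B` with `B`
normal, projective, and connected fibres; `pull M π` the set of the classes of the line bundles
`π^* A`, `A` ample on `B`. -/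
structure Fibrations (n : ℕ) extends Moduli.{u} n where
  /-- the monodromy group -/
  mon : Subgroup (V n ≃ₗ[ℝ] V n)
  /-- the Lagrangian fibrations -/
  Fib : Mk → Type u
  /-- the classes of the pull-backs of ample line bundles -/
  pull : ∀ M, Fib M → Set (V n)

variable {n : ℕ}

namespace Fibrations

variable (T : Fibrations.{u} n)

/-- The conclusion of the SYZ conjecture for the line bundle `L` on `M` with class `ℓ`: there are a
Lagrangian fibration `π : M → B`, an ample line bundle `A` on `B` and `k > 0` with
`L ^ k ≅ π^* A`. -/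
def SYZ (M : T.Mk) (l : V n) : Prop :=
  ∃ π : T.Fib M, ∃ k : ℕ, 0 < k ∧ (k : ℝ) • l ∈ T.pull M π

/-- Known facts: see `Moduli.Facts`. `finite_index` (Verbitsky): the monodromy group has finite index in
the group of the isometries of the lattice. `orbits`: there are finitely many orbits of the monodromy
group on the set of the primitive isotropic classes (Borel and Harish-Chandra), so every isotropic
class is mapped to a multiple of one of finitely many. `relabel`: the marking may be changed by a
monodromy operator. `pull_smul`: powers of ample line bundles are ample. `matsushita`: if the pairs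
`(M, L)`, `(M', L')` are deformations of each other, `L` and `L'` nef with `q = 0`, and `L` is as in
`SYZ`, then so is `L'`. -/
structure Facts : Prop extends T.toModuli.Facts where
  finite_index : ∃ k : ℕ, 0 < k ∧ ∀ φ : V n ≃ₗ[ℝ] V n, (∀ x y, T.B (φ x) (φ y) = T.B x y) →
    (∀ x, IsInt x ↔ IsInt (φ x)) → φ ^ k ∈ T.mon
  orbits : ∃ S : Finset (V n), (∀ s ∈ S, IsInt s ∧ s ≠ 0 ∧ T.B s s = 0) ∧
    ∀ l, IsInt l → l ≠ 0 → T.B l l = 0 → ∃ s ∈ S, ∃ φ ∈ T.mon, ∃ k : ℕ, 0 < k ∧ φ l = (k : ℝ) • s
  pull_smul : ∀ M π, ∀ x ∈ T.pull M π, ∀ k : ℕ, 0 < k → (k : ℝ) • x ∈ T.pull M π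
  relabel : ∀ φ ∈ T.mon, ∀ M, ∃ M', (∀ x, T.SYZ M' (φ x) ↔ T.SYZ M x) ∧
    ∀ x, T.NefIsotropic M x → T.NefIsotropic M' (φ x)
  matsushita : ∀ M M' l, T.NefIsotropic M l → T.NefIsotropic M' l → T.SYZ M l → T.SYZ M' l

/-- Finitely many pairs `(M i, L i)`, where `L i` is a non-trivial nef line bundle on `M i` with `q = 0`
and class `l i`, and `Q (M i) (l i)` holds, decide the SYZ conjecture for the deformation type: every
integral isotropic class is mapped to a positive multiple of some `l i` by a monodromy operator, and all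
non-trivial nef line bundles with `q = 0` on all manifolds of this type come from Lagrangian fibrations
if and only if the `L i` do. -/
def FinitelyManyDecide (Q : T.Mk → V n → Prop) : Prop :=
  ∃ (m : ℕ) (M : Fin m → T.Mk) (l : Fin m → V n),
    (∀ i, T.NefIsotropic (M i) (l i) ∧ Q (M i) (l i)) ∧
    (∀ x, IsInt x → x ≠ 0 → T.B x x = 0 →
      ∃ i, ∃ φ ∈ T.mon, ∃ k : ℕ, 0 < k ∧ φ x = (k : ℝ) • l i) ∧
    ((∀ M l, T.NefIsotropic M l → T.SYZ M l) ↔ ∀ i, T.SYZ (M i) (l i))

end Fibrations

/-- The real part of a class in `H²(M, ℂ)`. -/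
def reP (z : Fin n → ℂ) : V n := fun i => (z i).re

/-- The imaginary part of a class in `H²(M, ℂ)`. -/
def imP (z : Fin n → ℂ) : V n := fun i => (z i).im

/-- The plane spanned by the real and the imaginary part of `σ`. -/
def plane (z : Fin n → ℂ) : Submodule ℝ (V n) := Submodule.span ℝ {reP z, imP z}

/-- The periods of a holomorphic family of marked hyperkähler manifolds `X s`, `s` in the connected open
set `Ω` of the complex plane: `σ s` is the class of the symplectic form of `X s`, which depends
holomorphically on `s` and satisfies `q (σ, σ) = 0`, `q (σ, \bar σ) > 0`. -/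
structure PeriodMap (T : Moduli.{u} n) (Ω : Set ℂ) (σ : ℂ → Fin n → ℂ) : Prop where
  isOpen : IsOpen Ω
  conn : IsPreconnected Ω
  holo : DifferentiableOn ℂ σ Ω
  square : ∀ s ∈ Ω, T.B (reP (σ s)) (reP (σ s)) = T.B (imP (σ s)) (imP (σ s)) ∧
    T.B (reP (σ s)) (imP (σ s)) = 0
  pos : ∀ s ∈ Ω, 0 < T.B (reP (σ s)) (reP (σ s))

end Pool.Agent.Q34.HF
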