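import Pool.Agent.Q34.HF.Nef

/-!
# The directions of the orbit of an isotropic class under the monodromy group are dense
-/

set_option autoImplicit false
set_option maxHeartbeats 4000000
set_option synthInstance.maxHeartbeats 400000

universe u

namespace Pool.Agent.Q34.HF

open Pool.Agent.Q50.HK Pool.Agent.Q50.HK.Moduli Filter Topology

variable {n : ℕ}

namespace Fibrations

variable {T : Fibrations.{u} n}

/-- `v` is a limit of multiples of elements of the orbit of `l`. -/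
def Lim (T : Fibrations.{u} n) (l v : V n) : Prop :=
  ∀ O : Set (V n), IsOpen O → v ∈ O → ∃ φ ∈ T.mon, ∃ c : ℝ, c ≠ 0 ∧ c • φ l ∈ O

theorem lim_self (l : V n) : T.Lim l l := fun O _ h => ⟨1, T.mon.one_mem, 1, one_ne_zero, by
  rw [one_smul]
  exact h⟩

theorem lim_of (hT : T.Facts) {l v f : V n} (hv : T.Lim l v) (hf : IsInt f) (hq : T.B f f = 0)
    (hvf : T.B v f ≠ 0) : T.Lim l f := by
  have hF : T.toModuli.Facts := hT.toFacts
  intro O hO hfO
  obtain ⟨φ, hφ, c, hc, hcφ⟩ := hv {w | T.B w f ≠ 0}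
    (isOpen_ne.preimage (continuous_left T.toModuli f)) hvf
  have hm0 : T.B f (φ l) ≠ 0 := by
    intro h
    apply hcφ
    rw [map_smul, LinearMap.smul_apply, hF.symm, h, smul_zero]
  set m : V n := φ l with hm
  have hf0 : f ≠ 0 := by
    rintro rfl
    simp at hvf
  obtain ⟨z, hz, hzf⟩ := exists_z hF hf0
  obtain ⟨F, hFr⟩ := ratProj_line hF hf hz hzf.ne'
  obtain ⟨u, v', hu, hv', g1, g2⟩ := plane_line hF f
  obtain ⟨a, ha, haf, haa⟩ := approx hFr hu (c := 1) (by linarith)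
  rw [orth_span_singleton] at haf
  rw [one_mul] at haa
  obtain ⟨k, hk, hfin⟩ := hT.finite_index
  have h2a : T.B f ((2 : ℝ) • a) = 0 := by rw [map_smul, haf, smul_zero]
  have hψ := hfin (tvE hF f ((2 : ℝ) • a) hq h2a)
    (fun x y => by
      rw [tvE_apply, tvE_apply]
      exact tv_isometry hF hq h2a x y)
    (fun x => by
      constructor
      · intro hx
        rw [tvE_apply]
        exact tv_int hF hf ha hx
      · intro hx
        have h1 := tv_int hF hf ha.neg hx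
        rw [tvE_apply, tv_comp hF hq (by rw [map_smul, map_neg, haf]; simp) h2a] at h1
        have e : (2 : ℝ) • -a + (2 : ℝ) • a = 0 := by module
        rw [e, tv_zero] at h1
        exact h1)
  have hkr : (k : ℝ) ≠ 0 := by exact_mod_cast hk.ne'
  set γ : ℝ := -(1 / (2 * (k : ℝ) ^ 2 * T.B a a * T.B f m)) with hγ
  have hγ0 : γ ≠ 0 := by
    rw [hγ]
    have := haa.ne'
    simp only [ne_eq, neg_eq_zero, one_div, inv_eq_zero]
    positivity
  set u' : V n := γ • ((-(2 * (k : ℝ) * T.B a m)) • f + (2 * (k : ℝ) * T.B f m) • a) with hu'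
  have key : ∀ N : ℕ, 0 < N → (γ * ((N : ℝ)⁻¹ * (N : ℝ)⁻¹)) •
      ((((tvE hF f ((2 : ℝ) • a) hq h2a) ^ k) ^ N * φ) l) =
      f + (N : ℝ)⁻¹ • u' + ((N : ℝ)⁻¹ * (N : ℝ)⁻¹) • (γ • m) := by
    intro N hN
    have hNr : (N : ℝ) ≠ 0 := by exact_mod_cast hN.ne'
    rw [LinearEquiv.mul_apply, ← hm, ← pow_mul, tvE_pow, tv_apply, hu']
    simp only [map_smul, LinearMap.smul_apply, smul_eq_mul]
    push_cast
    have haa' := haa.ne'
    match_scalars
    · rw [hγ]
      field_simp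
    · rw [hγ]
      field_simp
      ring
    · rw [hγ]
      field_simp
  have hlim : Tendsto (fun N : ℕ => f + (N : ℝ)⁻¹ • u' + ((N : ℝ)⁻¹ * (N : ℝ)⁻¹) • (γ • m))
      atTop (𝓝 f) := by
    have h0 : Tendsto (fun N : ℕ => (N : ℝ)⁻¹) atTop (𝓝 0) := tendsto_inv_atTop_nhds_zero_nat
    have h1 := ((tendsto_const_nhds (x := f)).add (h0.smul_const u')).add
      ((h0.mul h0).smul_const (γ • m))
    simpa using h1
  obtain ⟨N, hN, hN1⟩ := ((hlim.eventually (hO.mem_nhds hfO)).and (eventually_gt_atTop 0)).exists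
  refine ⟨_, T.mon.mul_mem (T.mon.pow_mem hψ N) hφ, γ * ((N : ℝ)⁻¹ * (N : ℝ)⁻¹), ?_, ?_⟩
  · have hNr : (N : ℝ) ≠ 0 := by exact_mod_cast hN1.ne'
    positivity
  · rw [key N hN1]
    exact hN

/-- The reflection in `x`, up to a factor. -/
def refl (T : Moduli.{u} n) (l x : V n) : V n := T.B x x • l - (2 * T.B l x) • x

theorem refl_sq (hF : T.toModuli.Facts) {l x : V n} (hq : T.B l l = 0) :
    T.B (refl T.toModuli l x) (refl T.toModuli l x) = 0 := by
  simp only [refl, map_sub, LinearMap.sub_apply, map_smul, LinearMap.smul_apply, smul_eq_mul, hq,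
    hF.symm x l]
  ring

theorem refl_int (hF : T.toModuli.Facts) {l x : V n} (hl : IsInt l) (hx : IsInt x) :
    IsInt (refl T.toModuli l x) := by
  obtain ⟨p, hp⟩ := hF.integral x x hx hx
  obtain ⟨r, hr⟩ := hF.integral l x hl hx
  have e : refl T.toModuli l x = (p : ℝ) • l - ((2 * r : ℤ) : ℝ) • x := by
    rw [refl, hp, hr]
    push_cast
    rfl
  rw [e]
  exact (hl.zsmul _).sub (hx.zsmul _)

theorem refl_pair (l x y : V n) :
    T.B (refl T.toModuli l x) y = T.B x x * T.B l y - 2 * T.B l x * T.B x y := by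
  simp only [refl, map_sub, LinearMap.sub_apply, map_smul, LinearMap.smul_apply, smul_eq_mul]

/-- A class of positive square. -/
theorem exists_pos (hF : T.toModuli.Facts) : ∃ u : V n, 0 < T.B u u := by
  obtain ⟨W, hW3, hWp, -⟩ := hF.signature
  have : W ≠ ⊥ := by
    rintro rfl
    simp at hW3
  obtain ⟨w, hw, hw0⟩ := (Submodule.ne_bot_iff _).1 this
  exact ⟨w, hWp w hw hw0⟩

/-- An integral isotropic class which is orthogonal to neither of two nonzero isotropic classes. -/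
theorem exists_isotropic (hF : T.toModuli.Facts) {l f : V n} (hl : IsInt l) (h0 : l ≠ 0)
    (hq : T.B l l = 0) (hf0 : f ≠ 0) (hlf : T.B l f = 0) :
    ∃ g, IsInt g ∧ T.B g g = 0 ∧ T.B l g ≠ 0 ∧ T.B g f ≠ 0 := by
  obtain ⟨u, hu⟩ := exists_pos hF
  have hnd : ∀ x : V n, x ≠ 0 → ∃ s ∈ (⊤ : Submodule ℝ (V n)), T.B s x ≠ 0 := by
    intro x hx
    by_contra h
    push Not at h
    exact hx (nondeg hF fun y => by rw [hF.symm]; exact h y trivial)
  obtain ⟨x, -, hxx, hx⟩ := generic T.toModuli ⊤ {l, f} ((Set.countable_singleton f).insert l) (by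
    rintro y (rfl | hy)
    · exact hnd _ h0
    · rw [Set.mem_singleton_iff.1 hy]
      exact hnd _ hf0) (U := {w | T.B w w ≠ 0}) (isOpen_ne.preimage (continuous_form T.toModuli))
      (u := u) trivial hu.ne'
  have hxl := hx l (by simp)
  have hxf := hx f (by simp)
  have hO : IsOpen {w : V n | T.B w w ≠ 0 ∧ T.B w l ≠ 0 ∧ T.B w f ≠ 0} :=
    (isOpen_ne.preimage (continuous_form T.toModuli)).inter
      ((isOpen_ne.preimage (continuous_left T.toModuli l)).inter
        (isOpen_ne.preimage (continuous_left T.toModuli f)))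
  obtain ⟨D, y, hD, hy, hyy, hyl, hyf⟩ := exists_rational hO ⟨x, hxx, hxl, hxf⟩
  have hyl' : T.B y l ≠ 0 := by
    intro h
    apply hyl
    rw [map_smul, LinearMap.smul_apply, h, smul_zero]
  have hyf' : T.B y f ≠ 0 := by
    intro h
    apply hyf
    rw [map_smul, LinearMap.smul_apply, h, smul_zero]
  refine ⟨refl T.toModuli l y, refl_int hF hl hy, refl_sq hF hq, ?_, ?_⟩
  · rw [hF.symm, refl_pair, hq, hF.symm l y]
    have : T.B y l * T.B y l ≠ 0 := mul_ne_zero hyl' hyl'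
    intro h
    apply this
    linarith
  · rw [refl_pair, hlf, hF.symm l y]
    have : T.B y l * T.B y f ≠ 0 := mul_ne_zero hyl' hyf'
    intro h
    apply this
    linarith

theorem lim_int (hT : T.Facts) {l f : V n} (hl : IsInt l) (h0 : l ≠ 0) (hq : T.B l l = 0)
    (hf : IsInt f) (hf0 : f ≠ 0) (hfq : T.B f f = 0) : T.Lim l f := by
  have hF : T.toModuli.Facts := hT.toFacts
  by_cases hlf : T.B l f = 0
  · obtain ⟨g, hg, hgg, hlg, hgf⟩ := exists_isotropic hF hl h0 hq hf0 hlf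
    exact lim_of hT (lim_of hT (lim_self l) hg hgg hlg) hf hfq hgf
  · exact lim_of hT (lim_self l) hf hfq hlf

/-- **Density.** Every real isotropic class is a limit of multiples of elements of the orbit of a
given integral isotropic class. -/
theorem lim_all (hT : T.Facts) {l v : V n} (hl : IsInt l) (h0 : l ≠ 0) (hq : T.B l l = 0)
    (hv0 : v ≠ 0) (hvq : T.B v v = 0) : T.Lim l v := by
  have hF : T.toModuli.Facts := hT.toFacts
  obtain ⟨l₁, hl₁, hq₁, hlv⟩ : ∃ l₁, IsInt l₁ ∧ T.B l₁ l₁ = 0 ∧ T.B l₁ v ≠ 0 := by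
    by_cases hlv : T.B l v = 0
    · obtain ⟨g, hg, hgg, -, hgf⟩ := exists_isotropic hF hl h0 hq hv0 hlv
      exact ⟨g, hg, hgg, hgf⟩
    · exact ⟨l, hl, hq, hlv⟩
  intro O hO hvO
  set r : ℝ := T.B l₁ v with hr
  set c₀ : ℝ := -(1 / (2 * r)) with hc₀
  have hc₀0 : c₀ ≠ 0 := by
    rw [hc₀]
    simp only [ne_eq, neg_eq_zero, one_div, inv_eq_zero]
    exact mul_ne_zero two_ne_zero hlv
  have hRc : Continuous (refl T.toModuli l₁) := by
    unfold refl
    exact ((continuous_form T.toModuli).smul continuous_const).sub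
      ((continuous_const.mul (LinearMap.continuous_of_finiteDimensional (T.B l₁))).smul
        continuous_id)
  have hR0 : refl T.toModuli l₁ (l₁ - v) = (-(2 * r)) • v := by
    have e1 : T.B (l₁ - v) (l₁ - v) = -(2 * r) := by
      simp only [map_sub, LinearMap.sub_apply, hq₁, hvq, hF.symm v l₁, ← hr]
      ring
    have e2 : T.B l₁ (l₁ - v) = -r := by
      rw [map_sub, hq₁, ← hr, zero_sub]
    rw [refl, e1, e2]
    module
  have hO' : IsOpen {x : V n | c₀ • refl T.toModuli l₁ x ∈ O ∧ refl T.toModuli l₁ x ≠ 0} :=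
    (hO.preimage (hRc.const_smul c₀)).inter (isOpen_ne.preimage hRc)
  obtain ⟨D, y, hD, hy, hy1, hy2⟩ := exists_rational hO' ⟨l₁ - v, by
    have : c₀ • refl T.toModuli l₁ (l₁ - v) = v := by
      rw [hR0, smul_smul, hc₀]
      have : -(1 / (2 * r)) * -(2 * r) = 1 := by
        field_simp
      rw [this, one_smul]
    rw [this]
    exact hvO, by
    rw [hR0]
    exact smul_ne_zero (neg_ne_zero.2 (mul_ne_zero two_ne_zero hlv)) hv0⟩
  have hDr : (D : ℝ) ≠ 0 := by exact_mod_cast hD.ne'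
  have hRs : refl T.toModuli l₁ ((D : ℝ)⁻¹ • y) = ((D : ℝ)⁻¹ * (D : ℝ)⁻¹) •
      refl T.toModuli l₁ y := by
    simp only [refl, map_smul, LinearMap.smul_apply, smul_eq_mul]
    module
  rw [hRs] at hy1 hy2
  have hf0 : refl T.toModuli l₁ y ≠ 0 := by
    intro h
    apply hy2
    rw [h, smul_zero]
  have hc2 : Continuous fun w : V n => c₀ • ((D : ℝ)⁻¹ * (D : ℝ)⁻¹) • w := by fun_prop
  obtain ⟨φ, hφ, c, hc, hcφ⟩ := lim_int hT hl h0 hq (refl_int hF hl₁ hy) hf0 (refl_sq hF hq₁)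
    {w | c₀ • ((D : ℝ)⁻¹ * (D : ℝ)⁻¹) • w ∈ O}
    (hO.preimage hc2) hy1
  refine ⟨φ, hφ, c₀ * ((D : ℝ)⁻¹ * (D : ℝ)⁻¹) * c, ?_, ?_⟩
  · have := inv_ne_zero hDr
    exact mul_ne_zero (mul_ne_zero hc₀0 (mul_ne_zero this this)) hc
  · have h1 : c₀ • ((D : ℝ)⁻¹ * (D : ℝ)⁻¹) • c • φ l ∈ O := hcφ
    rw [smul_smul, smul_smul] at h1
    exact h1

end Fibrations

end Pool.Agent.Q34.HF
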