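import Pool.Agent.Q34.HF.Dens

/-!
# Zeros of the pairing of a real class with a holomorphic period
-/

set_option autoImplicit false
set_option maxHeartbeats 4000000
set_option synthInstance.maxHeartbeats 400000

universe u

namespace Pool.Agent.Q34.HF

open Pool.Agent.Q50.HK Pool.Agent.Q50.HK.Moduli Filter Topology Metric

variable {n : ℕ} {T : Moduli.{u} n}

/-- The pairing of a real and a complex class. -/
noncomputable def pr (T : Moduli.{u} n) (v : V n) (z : Fin n → ℂ) : ℂ :=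
  ∑ i, (T.B v (fun j => if i = j then 1 else 0) : ℂ) * z i

theorem B_eq_sum (T : Moduli.{u} n) (v w : V n) :
    T.B v w = ∑ i, T.B v (fun j => if i = j then 1 else 0) * w i := by
  conv_lhs => rw [LinearMap.pi_apply_eq_sum_univ (T.B v) w]
  refine Finset.sum_congr rfl fun i _ => ?_
  rw [smul_eq_mul, mul_comm]

theorem pr_re (v : V n) (z : Fin n → ℂ) : (pr T v z).re = T.B v (reP z) := by
  rw [B_eq_sum, pr, Complex.re_sum]
  refine Finset.sum_congr rfl fun i _ => ?_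
  rw [Complex.re_ofReal_mul]
  rfl

theorem pr_im (v : V n) (z : Fin n → ℂ) : (pr T v z).im = T.B v (imP z) := by
  rw [B_eq_sum, pr, Complex.im_sum]
  refine Finset.sum_congr rfl fun i _ => ?_
  rw [Complex.im_ofReal_mul]
  rfl

theorem pr_eq_zero {v : V n} {z : Fin n → ℂ} :
    pr T v z = 0 ↔ T.B v (reP z) = 0 ∧ T.B v (imP z) = 0 := by
  rw [Complex.ext_iff, pr_re, pr_im]
  rfl

theorem pr_add (v w : V n) (z : Fin n → ℂ) : pr T (v + w) z = pr T v z + pr T w z := by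
  simp only [Complex.ext_iff, Complex.add_re, Complex.add_im, pr_re, pr_im, map_add,
    LinearMap.add_apply, and_self]

theorem pr_smul (c : ℝ) (v : V n) (z : Fin n → ℂ) : pr T (c • v) z = (c : ℂ) * pr T v z := by
  simp only [Complex.ext_iff, Complex.re_ofReal_mul, Complex.im_ofReal_mul, pr_re, pr_im, map_smul,
    LinearMap.smul_apply, smul_eq_mul, and_self]

theorem pr_continuous : Continuous fun p : V n × (Fin n → ℂ) => pr T p.1 p.2 := by
  unfold pr
  refine continuous_finsetSum _ fun i _ => ?_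
  refine Continuous.mul ?_ ?_
  · exact Complex.continuous_ofReal.comp ((continuous_left T _).comp continuous_fst)
  · exact (continuous_apply i).comp continuous_snd

theorem pr_holo {Ω : Set ℂ} {σ : ℂ → Fin n → ℂ} (h : DifferentiableOn ℂ σ Ω) (v : V n) :
    DifferentiableOn ℂ (fun s => pr T v (σ s)) Ω := by
  unfold pr
  refine DifferentiableOn.fun_sum fun i _ => ?_
  exact (differentiableOn_pi.1 h i).const_mul _

/-- Zeros persist. -/
theorem zero_persists {U : Set ℂ} (hU : IsOpen U) {σ : ℂ → Fin n → ℂ}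
    (h : DifferentiableOn ℂ σ U) {s₀ : ℂ} (hs₀ : s₀ ∈ U) {v₀ : V n}
    (h0 : pr T v₀ (σ s₀) = 0) (hne : ¬ ∀ᶠ s in 𝓝 s₀, pr T v₀ (σ s) = 0) :
    ∃ O : Set (V n), IsOpen O ∧ v₀ ∈ O ∧ ∀ v ∈ O, ∃ s ∈ U, pr T v (σ s) = 0 ∧
      ∃ t ∈ U, pr T v (σ t) ≠ 0 := by
  have han : AnalyticAt ℂ (fun s => pr T v₀ (σ s)) s₀ :=
    (pr_holo h v₀).analyticAt (hU.mem_nhds hs₀)
  have h1 : ∀ᶠ s in 𝓝[≠] s₀, pr T v₀ (σ s) ≠ 0 :=
    han.eventually_eq_zero_or_eventually_ne_zero.resolve_left hne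
  rw [eventually_nhdsWithin_iff] at h1
  obtain ⟨R, hR, hRU⟩ := Metric.mem_nhds_iff.1 (inter_mem h1 (hU.mem_nhds hs₀))
  set r : ℝ := R / 2 with hr
  have hr0 : 0 < r := by positivity
  have hrR : closedBall s₀ r ⊆ ball s₀ R := closedBall_subset_ball (by linarith)
  have hσc : ContinuousOn σ (closedBall s₀ r) :=
    h.continuousOn.mono fun s hs => (hRU (hrR hs)).2
  -- a lower bound on the circle
  have hsph : IsCompact (sphere s₀ r) := isCompact_sphere s₀ r
  have hcont : ContinuousOn (fun s => ‖pr T v₀ (σ s)‖) (sphere s₀ r) :=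
    ((pr_holo h v₀).continuousOn.mono fun s hs =>
      (hRU (hrR (sphere_subset_closedBall hs))).2).norm
  obtain ⟨s₁, hs₁, hmin⟩ := hsph.exists_isMinOn (NormedSpace.sphere_nonempty.2 hr0.le) hcont
  set m : ℝ := ‖pr T v₀ (σ s₁)‖ with hm
  have hm0 : 0 < m := by
    rw [hm, norm_pos_iff]
    refine (hRU (hrR (sphere_subset_closedBall hs₁))).1 ?_
    intro h2
    rw [h2, mem_sphere_iff_norm, sub_self, norm_zero] at hs₁
    exact hr0.ne hs₁
  -- uniform continuity
  obtain ⟨O, hO, hvO, hOm⟩ : ∃ O : Set (V n), IsOpen O ∧ v₀ ∈ O ∧ ∀ v ∈ O,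
      ∀ s ∈ closedBall s₀ r, ‖pr T v (σ s) - pr T v₀ (σ s)‖ < m / 8 := by
    have hK : IsCompact (closedBall s₀ r) := isCompact_closedBall s₀ r
    have hev : ∀ s ∈ closedBall s₀ r, ∀ᶠ p : V n × (Fin n → ℂ) in 𝓝 (v₀, σ s),
        ‖pr T p.1 p.2 - pr T v₀ p.2‖ < m / 8 := by
      intro s _
      have hc : Continuous fun p : V n × (Fin n → ℂ) => ‖pr T p.1 p.2 - pr T v₀ p.2‖ :=
        (pr_continuous.sub (pr_continuous.comp (continuous_const.prodMk continuous_snd))).norm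
      exact (hc.continuousAt).eventually_lt continuousAt_const (by simp; positivity)
    have hK2 : IsCompact (σ '' closedBall s₀ r) := hK.image_of_continuousOn hσc
    have h3 : ∀ᶠ v in 𝓝 v₀, ∀ z ∈ σ '' closedBall s₀ r, ‖pr T v z - pr T v₀ z‖ < m / 8 := by
      refine hK2.eventually_forall_of_forall_eventually ?_
      rintro z ⟨s, hs, rfl⟩
      exact hev s hs
    obtain ⟨O, hOs, hO, hv⟩ := _root_.mem_nhds_iff.1 h3
    exact ⟨O, hO, hv, fun v hvO s hs => hOs hvO _ ⟨s, hs, rfl⟩⟩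
  refine ⟨O, hO, hvO, fun v hv => ?_⟩
  have hb := hOm v hv
  have hs₀r : s₀ ∈ closedBall s₀ r := mem_closedBall_self hr0.le
  have hb0 : ‖pr T v (σ s₀)‖ < m / 8 := by
    have := hb s₀ hs₀r
    rwa [h0, sub_zero] at this
  have hbs : ∀ s ∈ sphere s₀ r, m / 2 ≤ ‖pr T v (σ s) - pr T v (σ s₀)‖ := by
    intro s hs
    have e1 := hb s (sphere_subset_closedBall hs)
    have e2 : m ≤ ‖pr T v₀ (σ s)‖ := hmin hs
    have e3 : ‖pr T v₀ (σ s)‖ ≤ ‖pr T v (σ s) - pr T v (σ s₀)‖ + ‖pr T v (σ s₀)‖ +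
        ‖pr T v (σ s) - pr T v₀ (σ s)‖ := by
      have e4 : pr T v₀ (σ s) = (pr T v (σ s) - pr T v (σ s₀)) + pr T v (σ s₀) -
          (pr T v (σ s) - pr T v₀ (σ s)) := by ring
      calc ‖pr T v₀ (σ s)‖ = ‖(pr T v (σ s) - pr T v (σ s₀)) + pr T v (σ s₀) -
          (pr T v (σ s) - pr T v₀ (σ s))‖ := by rw [← e4]
        _ ≤ ‖(pr T v (σ s) - pr T v (σ s₀)) + pr T v (σ s₀)‖ +
          ‖pr T v (σ s) - pr T v₀ (σ s)‖ := norm_sub_le _ _
        _ ≤ _ := by
          gcongr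
          exact norm_add_le _ _
    linarith
  have hfd : DifferentiableOn ℂ (fun s => pr T v (σ s)) (ball s₀ R) :=
    (pr_holo h v).mono fun s hs => (hRU hs).2
  have hdc : DiffContOnCl ℂ (fun s => pr T v (σ s)) (ball s₀ r) := by
    apply DifferentiableOn.diffContOnCl
    rw [closure_ball _ hr0.ne']
    exact hfd.mono hrR
  have hfreq : ∃ᶠ z in 𝓝 s₀, pr T v (σ z) ≠ pr T v (σ s₀) := by
    intro hcon
    have h4 : ∀ᶠ z in 𝓝 s₀, pr T v (σ z) = pr T v (σ s₀) := by
      filter_upwards [hcon] with z hz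
      by_contra h5
      exact hz h5
    have h5 := (hfd.analyticOnNhd isOpen_ball).eqOn_of_preconnected_of_eventuallyEq
      analyticOnNhd_const (convex_ball s₀ R).isPreconnected (mem_ball_self hR) h4
    have h6 := hbs s₁ hs₁
    have h8 : pr T v (σ s₁) = pr T v (σ s₀) := h5 (hrR (sphere_subset_closedBall hs₁))
    rw [h8, sub_self, norm_zero] at h6
    linarith
  have h7 := hdc.ball_subset_image_closedBall hr0 hbs hfreq
  obtain ⟨s, hs, hs0⟩ := h7 (show (0 : ℂ) ∈ ball (pr T v (σ s₀)) (m / 2 / 2) by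
    rw [mem_ball, dist_comm, dist_zero_right]
    linarith)
  refine ⟨s, (hRU (hrR hs)).2, hs0, s₁, (hRU (hrR (sphere_subset_closedBall hs₁))).2, ?_⟩
  intro h8
  have h9 := hb s₁ (sphere_subset_closedBall hs₁)
  rw [h8, zero_sub, norm_neg, ← hm] at h9
  linarith

end Pool.Agent.Q34.HF
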