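import Pool.Agent.Q34.HF.Disc

/-!
# Every non-isotrivial family decides the SYZ conjecture for its deformation type
-/

set_option autoImplicit false
set_option maxHeartbeats 4000000
set_option synthInstance.maxHeartbeats 400000

universe u

namespace Pool.Agent.Q34.HF

open Pool.Agent.Q50.HK Pool.Agent.Q50.HK.Moduli Filter Topology Metric

variable {n : ℕ}

section

variable {T : Moduli.{u} n}

/-- A class of positive square orthogonal to a positive plane. -/
theorem exists_pos_orth (hT : T.Facts) {P : Submodule ℝ (V n)} (hP2 : Module.finrank ℝ P = 2) :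
    ∃ k, T.Orth P k ∧ 0 < T.B k k := by
  obtain ⟨W, hW3, hWp, -⟩ := hT.signature
  let f : W →ₗ[ℝ] (P →ₗ[ℝ] ℝ) :=
    { toFun := fun x => (T.B (x : V n)).comp P.subtype
      map_add' := by
        intro x y
        ext w
        simp
      map_smul' := by
        intro c x
        ext w
        simp }
  have h1 : LinearMap.ker f ≠ ⊥ := by
    apply LinearMap.ker_ne_bot_of_finrank_lt
    rw [Subspace.dual_finrank_eq, hW3, hP2]
    norm_num
  obtain ⟨e, he, he0⟩ := (Submodule.ne_bot_iff _).1 h1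
  refine ⟨e, fun p hp => ?_, hWp e e.2 fun h => he0 (Subtype.ext h)⟩
  rw [hT.symm]
  exact LinearMap.congr_fun (LinearMap.mem_ker.1 he) ⟨p, hp⟩

/-- A nonzero class orthogonal to `P` and `k`. -/
theorem exists_orth_orth (hT : T.Facts) (hn : 4 ≤ n) {P : Submodule ℝ (V n)}
    (hP2 : Module.finrank ℝ P = 2) (k : V n) : ∃ e, e ≠ 0 ∧ T.Orth P e ∧ T.B k e = 0 := by
  let f : V n →ₗ[ℝ] ((P →ₗ[ℝ] ℝ) × ℝ) :=
    LinearMap.prod
      { toFun := fun x => (T.B x).comp P.subtype
        map_add' := by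
          intro x y
          ext w
          simp
        map_smul' := by
          intro c x
          ext w
          simp } (T.B k)
  have h1 : LinearMap.ker f ≠ ⊥ := by
    apply LinearMap.ker_ne_bot_of_finrank_lt
    rw [Module.finrank_prod, Module.finrank_self, Subspace.dual_finrank_eq, hP2,
      Module.finrank_fintype_fun_eq_card, Fintype.card_fin]
    omega
  obtain ⟨e, he, he0⟩ := (Submodule.ne_bot_iff _).1 h1
  have h2 := LinearMap.mem_ker.1 he
  refine ⟨e, he0, fun p hp => ?_, congrArg Prod.snd h2⟩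
  rw [hT.symm]
  exact LinearMap.congr_fun (congrArg Prod.fst h2) ⟨p, hp⟩

/-- The isotropic classes orthogonal to `P` span the orthogonal complement of `P`. -/
theorem span_isotropic (hT : T.Facts) (hn : 4 ≤ n) {P : Submodule ℝ (V n)}
    (hP2 : Module.finrank ℝ P = 2) (hPp : T.PosDef P) {z : Fin n → ℂ}
    (h : ∀ v, v ≠ 0 → T.B v v = 0 → T.Orth P v → pr T v z = 0) (y : V n) (hy : T.Orth P y) :
    pr T y z = 0 := by
  obtain ⟨k, hk, hkk⟩ := exists_pos_orth hT hP2
  -- classes orthogonal to `k`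
  have hpair : ∀ e, e ≠ 0 → T.Orth P e → T.B k e = 0 → pr T k z = 0 ∧ pr T e z = 0 := by
    intro e he0 he hke
    have hee := neg_of_orth hT hP2 hPp hk hkk he hke he0
    set τ : ℝ := Real.sqrt (T.B k k / -T.B e e) with hτ
    have hτ2 : τ ^ 2 * T.B e e = -T.B k k := by
      rw [hτ, Real.sq_sqrt (div_nonneg hkk.le (by linarith))]
      have : T.B e e ≠ 0 := hee.ne
      field_simp
    have hτ0 : τ ≠ 0 := by
      intro h0
      rw [h0] at hτ2
      have : T.B k k = 0 := by linarith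
      exact hkk.ne' this
    have hiso : ∀ c : ℝ, c ^ 2 = τ ^ 2 → pr T k z + (c : ℂ) * pr T e z = 0 := by
      intro c hc
      rw [← pr_smul, ← pr_add]
      apply h
      · intro h0
        have : T.B k (k + c • e) = T.B k k := by
          rw [map_add, map_smul, hke, smul_zero, add_zero]
        rw [h0, map_zero] at this
        exact hkk.ne this
      · have : T.B (k + c • e) (k + c • e) = T.B k k + c ^ 2 * T.B e e := by
          simp only [map_add, LinearMap.add_apply, map_smul, LinearMap.smul_apply, smul_eq_mul,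
            hT.symm e k, hke]
          ring
        rw [this, hc, hτ2, add_neg_cancel]
      · intro p hp
        rw [map_add, map_smul, hk p hp, he p hp, smul_zero, add_zero]
    have h1 := hiso τ rfl
    have h2 := hiso (-τ) (by ring)
    have hk0 : pr T k z = 0 := by
      have : 2 * pr T k z = 0 := by
        push_cast at h2
        linear_combination h1 + h2
      simpa using this
    refine ⟨hk0, ?_⟩
    rw [hk0, zero_add] at h1
    rcases mul_eq_zero.1 h1 with h3 | h3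
    · exact absurd (Complex.ofReal_eq_zero.1 h3) hτ0
    · exact h3
  have hk0 : pr T k z = 0 := by
    obtain ⟨e, he0, he, hke⟩ := exists_orth_orth hT hn hP2 k
    exact (hpair e he0 he hke).1
  set e : V n := y - (T.B k y / T.B k k) • k with he
  have heP : T.Orth P e := by
    intro p hp
    rw [he, map_sub, map_smul, hy p hp, hk p hp, smul_zero, sub_zero]
  have hke : T.B k e = 0 := by
    rw [he, map_sub, map_smul, smul_eq_mul]
    field_simp
    ring
  have he1 : pr T e z = 0 := by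
    by_cases he0 : e = 0
    · rw [he0, pr_eq_zero]
      simp
    · exact (hpair e he0 heP hke).2
  have hye : y = e + (T.B k y / T.B k k) • k := by
    rw [he]
    module
  rw [hye, pr_add, pr_smul, he1, hk0, mul_zero, add_zero]

theorem plane_facts (hT : T.Facts) {Ω : Set ℂ} {σ : ℂ → Fin n → ℂ} (h : PeriodMap T Ω σ) {s : ℂ}
    (hs : s ∈ Ω) : Module.finrank ℝ (plane (σ s)) = 2 ∧ T.PosDef (plane (σ s)) := by
  obtain ⟨h1, h2⟩ := h.square s hs
  have h3 := h.pos s hs
  refine span_pair hT h3 ?_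
  rw [h2, ← h1]
  have := mul_pos h3 h3
  simpa using this

/-- In a non-isotrivial family, every point has a real isotropic class which does not stay of type
`(1,1)`. -/
theorem exists_moving (hT : T.Facts) (hn : 4 ≤ n) {Ω : Set ℂ} {σ : ℂ → Fin n → ℂ}
    (h : PeriodMap T Ω σ) (hne : ∃ s ∈ Ω, ∃ t ∈ Ω, plane (σ s) ≠ plane (σ t)) {s₀ : ℂ}
    (hs₀ : s₀ ∈ Ω) : ∃ v, v ≠ 0 ∧ T.B v v = 0 ∧ pr T v (σ s₀) = 0 ∧
      ¬ ∀ᶠ s in 𝓝 s₀, pr T v (σ s) = 0 := by
  by_contra hcon
  push Not at hcon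
  obtain ⟨hP2, hPp⟩ := plane_facts hT h hs₀
  have hsame : ∀ s ∈ Ω, plane (σ s) = plane (σ s₀) := by
    intro s hs
    have h1 : ∀ v, v ≠ 0 → T.B v v = 0 → T.Orth (plane (σ s₀)) v → pr T v (σ s) = 0 := by
      intro v hv0 hvv hv
      have h2 : pr T v (σ s₀) = 0 := by
        rw [pr_eq_zero]
        rw [plane, orth_span_pair] at hv
        exact ⟨by rw [hT.symm]; exact hv.1, by rw [hT.symm]; exact hv.2⟩
      have h3 := hcon v hv0 hvv h2
      have h4 := ((pr_holo h.holo v).analyticOnNhd h.isOpen).eqOn_of_preconnected_of_eventuallyEq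
        (analyticOnNhd_const (v := (0 : ℂ))) h.conn hs₀ h3
      exact h4 hs
    have h5 := span_isotropic hT hn hP2 hPp h1
    have hre : reP (σ s) ∈ plane (σ s₀) := mem_of_orth hT _ fun y hy => (pr_eq_zero.1 (h5 y hy)).1
    have him : imP (σ s) ∈ plane (σ s₀) := mem_of_orth hT _ fun y hy => (pr_eq_zero.1 (h5 y hy)).2
    have hle : plane (σ s) ≤ plane (σ s₀) := by
      rw [plane, Submodule.span_le]
      rintro x (rfl | hx)
      · exact hre
      · rw [Set.mem_singleton_iff.1 hx]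
        exact him
    exact Submodule.eq_of_le_of_finrank_eq hle (by rw [hP2, (plane_facts hT h hs).1])
  obtain ⟨s, hs, t, ht, hst⟩ := hne
  exact hst ((hsame s hs).trans (hsame t ht).symm)

end

namespace Fibrations

variable {T : Fibrations.{u} n}

/-- Every integral isotropic class is nef on some manifold. -/
theorem exists_nef_of_isotropic (hT : T.Facts) {l : V n} (hl : IsInt l) (h0 : l ≠ 0)
    (hq : T.B l l = 0) : ∃ M, T.NefIsotropic M l := by
  have hF : T.toModuli.Facts := hT.toFacts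
  obtain ⟨u, v, hu, hv, g1, g2⟩ := plane_line hF l
  obtain ⟨hP2, hPp⟩ := span_pair hF g1 g2
  rw [orth_span_singleton] at hu hv
  have horth : T.Orth (Submodule.span ℝ {u, v}) l := by
    rw [orth_span_pair]
    exact ⟨by rw [hF.symm]; exact hu, by rw [hF.symm]; exact hv⟩
  obtain ⟨M, hM, hnef⟩ := exists_nef hF hP2 hPp hl h0 hq horth
  exact ⟨M, ⟨hl, by rw [hM]; exact horth⟩, h0, hq, hnef⟩

/-- **Density in families.** -/
theorem dense_pairs (hT : T.Facts) (hn : 4 ≤ n) {Ω : Set ℂ} {σ : ℂ → Fin n → ℂ}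
    (h : PeriodMap T.toModuli Ω σ) (hne : ∃ s ∈ Ω, ∃ t ∈ Ω, plane (σ s) ≠ plane (σ t))
    {U : Set ℂ} (hU : IsOpen U) (hUΩ : U ⊆ Ω) (hU0 : U.Nonempty) {l : V n}
    (hl : IsInt l) (h0 : l ≠ 0) (hq : T.B l l = 0) :
    ∃ s ∈ U, ∃ M, T.period M = plane (σ s) ∧ ∃ φ ∈ T.mon, T.NefIsotropic M (φ l) ∧
      ∃ t ∈ U, pr T.toModuli (φ l) (σ t) ≠ 0 := by
  have hF : T.toModuli.Facts := hT.toFacts
  obtain ⟨M₀, hM₀⟩ := exists_nef_of_isotropic hT hl h0 hq
  obtain ⟨s₀, hs₀⟩ := hU0
  obtain ⟨v, hv0, hvv, hv, hvne⟩ := exists_moving hF hn h hne (hUΩ hs₀)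
  obtain ⟨O, hO, hvO, hOz⟩ := zero_persists hU (h.holo.mono hUΩ) hs₀ hv hvne
  obtain ⟨φ, hφ, c, hc, hcO⟩ := lim_all hT hl h0 hq hv0 hvv O hO hvO
  obtain ⟨s, hs, hs0, t, ht, ht0⟩ := hOz _ hcO
  obtain ⟨M'', hM1, hM2⟩ := hT.relabel φ hφ M₀
  have hl2 := hM2 l hM₀
  have hpr : pr T.toModuli (φ l) (σ s) = 0 := by
    rw [pr_smul] at hs0
    rcases mul_eq_zero.1 hs0 with h1 | h1
    · exact absurd (Complex.ofReal_eq_zero.1 h1) hc
    · exact h1
  rw [pr_eq_zero] at hpr
  have horth : T.Orth (plane (σ s)) (φ l) := by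
    rw [plane, orth_span_pair]
    exact ⟨by rw [hF.symm]; exact hpr.1, by rw [hF.symm]; exact hpr.2⟩
  obtain ⟨hP2, hPp⟩ := plane_facts hF h (hUΩ hs)
  obtain ⟨M', hM', hnef⟩ := exists_nef hF hP2 hPp hl2.1.1 hl2.2.1 hl2.2.2.1 horth
  refine ⟨s, hs, M', hM', φ, hφ, ⟨⟨hl2.1.1, by rw [hM']; exact horth⟩, hl2.2.1, hl2.2.2.1, hnef⟩,
    t, ht, ?_⟩
  intro h1
  apply ht0
  rw [pr_smul, h1, mul_zero]

theorem nef_smul {M : T.Mk} {l : V n} (hl : T.NefIsotropic M l) {k : ℕ} (hk : 0 < k) :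
    T.NefIsotropic M ((k : ℝ) • l) := by
  refine ⟨⟨?_, ?_⟩, ?_, ?_, ?_⟩
  · have := hl.1.1.zsmul (k : ℤ)
    simpa using this
  · intro p hp
    rw [map_smul, hl.1.2 p hp, smul_zero]
  · exact smul_ne_zero (by exact_mod_cast hk.ne') hl.2.1
  · simp only [map_smul, LinearMap.smul_apply, hl.2.2.1, smul_zero]
  · intro y hy
    clear hk
    induction k with
    | zero =>
      rw [Nat.cast_zero, zero_smul, zero_add]
      exact hy
    | succ k ih =>
      have e : ((k + 1 : ℕ) : ℝ) • l + y = l + ((k : ℝ) • l + y) := by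
        push_cast
        module
      rw [e]
      exact hl.2.2.2 _ ih

/-- Finitely many pairs with a property `Q` decide, if each isotropic class can be moved to a nef class with
this property. -/
theorem decide_of (hT : T.Facts) (Q : T.Mk → V n → Prop)
    (h : ∀ l, IsInt l → l ≠ 0 → T.B l l = 0 →
      ∃ M, ∃ φ ∈ T.mon, T.NefIsotropic M (φ l) ∧ Q M (φ l)) :
    T.FinitelyManyDecide Q := by
  obtain ⟨S, hS, hSl⟩ := hT.orbits
  have h' : ∀ s : S, ∃ M, ∃ φ ∈ T.mon, T.NefIsotropic M (φ s) ∧ Q M (φ s) := fun s =>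
    h s (hS s s.2).1 (hS s s.2).2.1 (hS s s.2).2.2
  choose M φ hφ hnef hQ using h'
  have key : ∀ x, IsInt x → x ≠ 0 → T.B x x = 0 →
      ∃ i : Fin S.card, ∃ ψ ∈ T.mon, ∃ k : ℕ, 0 < k ∧
        ψ x = (k : ℝ) • φ (S.equivFin.symm i) (S.equivFin.symm i) := by
    intro x hx hx0 hxx
    obtain ⟨s, hs, ψ, hψ, k, hk, he⟩ := hSl x hx hx0 hxx
    refine ⟨S.equivFin ⟨s, hs⟩, φ ⟨s, hs⟩ * ψ, T.mon.mul_mem (hφ _) hψ, k, hk, ?_⟩
    rw [Equiv.symm_apply_apply, LinearEquiv.mul_apply, he, map_smul]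
  refine ⟨S.card, fun i => M (S.equivFin.symm i),
    fun i => φ (S.equivFin.symm i) (S.equivFin.symm i), fun i => ⟨hnef _, hQ _⟩, key,
    fun hall i => hall _ _ (hnef _), fun hall M' l hl => ?_⟩
  obtain ⟨i, ψ, hψ, k, hk, he⟩ := key l hl.1.1 hl.2.1 hl.2.2.1
  obtain ⟨M'', hM1, hM2⟩ := hT.relabel ψ hψ M'
  have h2 := hM2 l hl
  rw [← hM1 l]
  rw [he] at h2 ⊢
  refine hT.matsushita _ _ _ (nef_smul (hnef _) hk) h2 ?_
  obtain ⟨π, j, hj, hjl⟩ := hall i
  refine ⟨π, j, hj, ?_⟩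
  rw [smul_comm]
  exact hT.pull_smul _ _ _ hjl k hk

/-- **Main theorem.** -/
theorem family_decides (hT : T.Facts) (hn : 4 ≤ n) {Ω : Set ℂ} {σ : ℂ → Fin n → ℂ}
    (h : PeriodMap T.toModuli Ω σ) (hne : ∃ s ∈ Ω, ∃ t ∈ Ω, plane (σ s) ≠ plane (σ t))
    {U : Set ℂ} (hU : IsOpen U) (hUΩ : U ⊆ Ω) (hU0 : U.Nonempty) :
    T.FinitelyManyDecide fun M l =>
      (∃ s ∈ U, T.period M = plane (σ s)) ∧ (∃ t ∈ U, ¬ T.Orth (plane (σ t)) l) ∧
      ((∃ c, IsInt c ∧ c ≠ 0 ∧ 0 ≤ T.B c c ∧ ∀ t ∈ Ω, T.Orth (plane (σ t)) c) →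
        T.Projective M) := by
  have hF : T.toModuli.Facts := hT.toFacts
  refine decide_of hT _ fun l hl h0 hq => ?_
  obtain ⟨s, hs, M, hM, φ, hφ, hnef, t, ht, ht0⟩ := dense_pairs hT hn h hne hU hUΩ hU0 hl h0 hq
  have hno : ¬ T.Orth (plane (σ t)) (φ l) := by
    intro h1
    rw [plane, orth_span_pair] at h1
    apply ht0
    rw [pr_eq_zero]
    exact ⟨by rw [hF.symm]; exact h1.1, by rw [hF.symm]; exact h1.2⟩
  refine ⟨M, φ, hφ, hnef, ⟨s, hs, hM⟩, ⟨t, ht, hno⟩, ?_⟩
  rintro ⟨c, hc, hc0, hcc, hcΩ⟩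
  have hN : T.NS M c := ⟨hc, by rw [hM]; exact hcΩ s (hUΩ hs)⟩
  rcases hcc.eq_or_lt with hcc | hcc
  · have hcl : T.B c (φ l) ≠ 0 := by
      intro hcl
      obtain ⟨hP2, hPp⟩ := hF.period M
      obtain ⟨k, hk, hkk⟩ := exists_pos_orth hF hP2
      have hkc : T.B k c ≠ 0 := by
        intro hkc
        have := neg_of_orth hF hP2 hPp hk hkk hN.2 hkc hc0
        rw [← hcc] at this
        exact lt_irrefl _ this
      have hprop := proportional hF hP2 hPp hk hkk hnef.1.2 hnef.2.2.1 hN.2 hcc.symm hkc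
        (by rw [hF.symm]; exact hcl)
      apply hno
      rw [hprop]
      intro p hp
      rw [map_smul, hcΩ t (hUΩ ht) p hp, smul_zero]
    rcases lt_or_gt_of_ne hcl with hcl | hcl
    · refine ⟨c - φ l, ⟨hN.1.sub hnef.1.1, ?_⟩, ?_⟩
      · intro p hp
        rw [map_sub, hN.2 p hp, hnef.1.2 p hp, sub_zero]
      · simp only [map_sub, LinearMap.sub_apply, ← hcc, hnef.2.2.1, hF.symm (φ l) c]
        linarith
    · refine ⟨c + φ l, ⟨hN.1.add hnef.1.1, ?_⟩, ?_⟩
      · intro p hp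
        rw [map_add, hN.2 p hp, hnef.1.2 p hp, add_zero]
      · simp only [map_add, LinearMap.add_apply, ← hcc, hnef.2.2.1, hF.symm (φ l) c]
        linarith
  · exact ⟨c, hN, hcc⟩

/-- Degenerate twistor lines are examples of non-constant period maps. -/
theorem degenerate_twistor_line (hT : T.Facts) {M₀ : T.Mk} {l₀ a b : V n}
    (hl₀ : T.NefIsotropic M₀ l₀) (hab : T.period M₀ = Submodule.span ℝ {a, b})
    (h1 : T.B a a = T.B b b) (h2 : T.B a b = 0) :
    PeriodMap T.toModuli Set.univ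
      (fun s i => (a i : ℂ) + Complex.I * (b i : ℂ) + s * (l₀ i : ℂ)) ∧
    (∃ s ∈ (Set.univ : Set ℂ), ∃ t ∈ (Set.univ : Set ℂ),
      plane (fun i => (a i : ℂ) + Complex.I * (b i : ℂ) + s * (l₀ i : ℂ)) ≠
        plane (fun i => (a i : ℂ) + Complex.I * (b i : ℂ) + t * (l₀ i : ℂ))) ∧
    ∀ t ∈ (Set.univ : Set ℂ),
      T.Orth (plane (fun i => (a i : ℂ) + Complex.I * (b i : ℂ) + t * (l₀ i : ℂ))) l₀ := by
  have hF : T.toModuli.Facts := hT.toFacts
  obtain ⟨hP2, hPp⟩ := hF.period M₀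
  have hlo := hl₀.1.2
  rw [hab, orth_span_pair] at hlo
  have haP : a ∈ T.period M₀ := by
    rw [hab]
    exact Submodule.subset_span (by simp)
  have ha0 : a ≠ 0 := by
    rintro rfl
    have hb0 : T.B b b = 0 := by
      rw [← h1]
      simp
    have hbP : b ∈ T.period M₀ := by
      rw [hab]
      exact Submodule.subset_span (by simp)
    have hb : b = 0 := by
      by_contra hb
      exact (hPp b hbP hb).ne' hb0
    rw [hb] at hab
    have : Submodule.span ℝ ({0, 0} : Set (V n)) = ⊥ := by simp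
    rw [hab, this] at hP2
    simp at hP2
  have haa : 0 < T.B a a := hPp a haP ha0
  have hre : ∀ s : ℂ, reP (fun i => (a i : ℂ) + Complex.I * (b i : ℂ) + s * (l₀ i : ℂ)) =
      a + s.re • l₀ := by
    intro s
    funext i
    simp [reP]
  have him : ∀ s : ℂ, imP (fun i => (a i : ℂ) + Complex.I * (b i : ℂ) + s * (l₀ i : ℂ)) =
      b + s.im • l₀ := by
    intro s
    funext i
    simp [imP]
  have e0 : T.B l₀ l₀ = 0 := hl₀.2.2.1
  have e1 : T.B a l₀ = 0 := hlo.1
  have e2 : T.B b l₀ = 0 := hlo.2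
  have e3 : T.B l₀ a = 0 := by rw [hF.symm]; exact e1
  have e4 : T.B l₀ b = 0 := by rw [hF.symm]; exact e2
  refine ⟨⟨isOpen_univ, isPreconnected_univ, ?_, ?_, ?_⟩, ?_, ?_⟩
  · rw [differentiableOn_univ, differentiable_pi]
    intro i
    fun_prop
  · intro s _
    rw [hre, him]
    simp only [map_add, LinearMap.add_apply, map_smul, LinearMap.smul_apply, smul_eq_mul, e0, e1,
      e2, e3, e4, h1, h2]
    simp
  · intro s _
    rw [hre]
    simp only [map_add, LinearMap.add_apply, map_smul, LinearMap.smul_apply, smul_eq_mul, e0, e1,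
      e3]
    linarith
  · refine ⟨0, trivial, 1, trivial, ?_⟩
    intro heq
    rw [plane, plane, hre, him, hre, him] at heq
    have h5 : a + l₀ ∈ T.period M₀ := by
      rw [hab]
      have h6 : a + (1 : ℂ).re • l₀ ∈ Submodule.span ℝ {a + (1 : ℂ).re • l₀, b + (1 : ℂ).im • l₀} :=
        Submodule.subset_span (by simp)
      rw [← heq] at h6
      simpa using h6
    have h7 : l₀ ∈ T.period M₀ := by
      have := Submodule.sub_mem _ h5 haP
      simpa using this
    have := hPp l₀ h7 hl₀.2.1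
    exact this.ne' e0
  · intro t _
    rw [plane, hre, him, orth_span_pair]
    simp only [map_add, LinearMap.add_apply, map_smul, LinearMap.smul_apply, smul_eq_mul, e0, e1,
      e2]
    simp

end Fibrations

end Pool.Agent.Q34.HF
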