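import Pool.Agent.Q50.HK.Para
import Pool.Agent.Q34.HF.Defs

/-!
# An isotropic class of type `(1,1)` is nef on some manifold with the same period
-/

set_option autoImplicit false
set_option maxHeartbeats 4000000
set_option synthInstance.maxHeartbeats 400000

universe u

namespace Pool.Agent.Q34.HF

open Pool.Agent.Q50.HK Pool.Agent.Q50.HK.Moduli

variable {n : ℕ} {T : Moduli.{u} n}

/-- An integral isotropic class of type `(1,1)` for the period `P` is nef on some manifold with the
period `P`. -/
theorem exists_nef (hT : T.Facts) {P : Submodule ℝ (V n)} (hP2 : Module.finrank ℝ P = 2)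
    (hPp : T.PosDef P) {l : V n} (hl : IsInt l) (h0 : l ≠ 0) (hq : T.B l l = 0)
    (hlP : T.Orth P l) : ∃ M, T.period M = P ∧ T.Nef M l := by
  -- a generic class of positive square
  let S₂ : Submodule ℝ (V n) := T.B.orthogonal P
  have hU₂ : IsOpen {w : V n | 0 < T.B w w ∧ 0 < T.B w l} :=
    IsOpen.inter (isOpen_lt continuous_const (continuous_form T))
      (isOpen_lt continuous_const (continuous_left T l))
  have hk1 : ∃ s, T.Orth P s ∧ 0 < T.B s l := by
    by_contra hcon
    push Not at hcon
    have : l ∈ P := by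
      refine mem_of_orth hT P fun s hs => le_antisymm (hcon s hs) ?_
      have := hcon (-s) (fun p hp => by rw [map_neg, hs p hp, neg_zero])
      rw [map_neg, LinearMap.neg_apply] at this
      linarith
    have := hPp l this h0
    linarith
  obtain ⟨s, hsP, hsl⟩ := hk1
  set k₁ : V n := s + ((|T.B s s| + 1) / (2 * T.B s l)) • l with hk₁
  have hk₁P : T.Orth P k₁ := by
    intro p hp
    rw [hk₁, map_add, map_smul, hsP p hp, hlP p hp]
    simp
  have hk₁l : T.B k₁ l = T.B s l := by
    rw [hk₁]
    simp only [map_add, LinearMap.add_apply, map_smul, LinearMap.smul_apply, smul_eq_mul, hq]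
    ring
  have hk₁k : 0 < T.B k₁ k₁ := by
    have e : T.B k₁ k₁ = T.B s s + (|T.B s s| + 1) := by
      rw [hk₁]
      simp only [map_add, LinearMap.add_apply, map_smul, LinearMap.smul_apply, smul_eq_mul, hq,
        hT.symm l s]
      field_simp
      ring
    rw [e]
    have := neg_abs_le (T.B s s)
    linarith
  obtain ⟨k, hkP, ⟨hkk, hkl⟩, hk⟩ := generic T S₂ {d | d ∈ T.mbm ∧ T.Orth P d}
    (countable_int.mono fun x hx => (hT.mbm x hx.1).1) (by
      rintro d ⟨hd, hdP⟩
      exact ⟨d, hdP, (hT.mbm d hd).2.ne⟩) hU₂ (u := k₁) hk₁P ⟨hk₁k, by rw [hk₁l]; exact hsl⟩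
  replace hkP : T.Orth P k := hkP
  -- no walls near `l`
  obtain ⟨C, hC⟩ := hT.bounded
  set r : ℝ := T.B k l with hr
  set t₀ : ℝ := r * (|C| + 1) with ht₀
  have ht₀p : 0 < t₀ := by positivity
  have hxP : ∀ t : ℝ, T.Orth P (k + t • l) := by
    intro t p hp
    rw [map_add, map_smul, hkP p hp, hlP p hp]
    simp
  have hxx : ∀ t : ℝ, T.B (k + t • l) (k + t • l) = T.B k k + 2 * t * r := by
    intro t
    simp only [map_add, LinearMap.add_apply, map_smul, LinearMap.smul_apply, smul_eq_mul, hq,
      hT.symm l k]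
    ring
  have hxl : ∀ t : ℝ, T.B (k + t • l) l = r := by
    intro t
    simp only [map_add, LinearMap.add_apply, map_smul, LinearMap.smul_apply, smul_eq_mul, hq]
    ring
  have hfar : ∀ t, t₀ ≤ t → ∀ d ∈ T.mbm, T.Orth P d → T.B l d ≠ 0 → T.B (k + t • l) d ≠ 0 := by
    intro t ht d hd hdP hld hxd
    have htp : 0 < t := lt_of_lt_of_le ht₀p ht
    have hpos : 0 < T.B (k + t • l) (k + t • l) := by
      rw [hxx]
      positivity
    have h1 := isotropic_bound hT hP2 hPp (hxP t) hpos hlP hq hdP hxd
    rw [hxl, hxx] at h1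
    obtain ⟨m, hm⟩ := hT.integral l d hl (hT.mbm d hd).1
    have h2 : 1 ≤ T.B l d ^ 2 := by
      rw [hm] at hld ⊢
      have : m ≠ 0 := by
        rintro rfl
        simp at hld
      have : 1 ≤ m ^ 2 := by
        have := Int.one_le_abs this
        have := sq_abs m
        nlinarith
      exact_mod_cast this
    have h3 : T.B k k + 2 * t * r ≤ T.B l d ^ 2 * (T.B k k + 2 * t * r) := by
      have : 0 ≤ T.B k k + 2 * t * r := by positivity
      nlinarith
    have h4 : r ^ 2 * -T.B d d ≤ r ^ 2 * |C| := by
      apply mul_le_mul_of_nonneg_left _ (by positivity)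
      have := hC d hd
      have := le_abs_self C
      linarith
    have h5 : 2 * t₀ * r ≤ 2 * t * r := by
      have := mul_le_mul_of_nonneg_right ht (show 0 ≤ 2 * r by positivity)
      linarith
    have h6 : 2 * t₀ * r < r ^ 2 * |C| := by linarith
    rw [ht₀] at h6
    have h7 : 0 ≤ |C| := abs_nonneg C
    have h8 : 0 < r ^ 2 := by positivity
    nlinarith
  set x : V n := k + t₀ • l with hx
  have hsign : ∀ d ∈ T.mbm, T.Orth P d → T.B l d ≠ 0 → 0 < T.B x d * T.B l d := by
    intro d hd hdP hld
    by_contra hcon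
    push Not at hcon
    have hm2 : 0 < T.B l d ^ 2 := by positivity
    refine hfar (t₀ - T.B x d / T.B l d) ?_ d hd hdP hld ?_
    · have : 0 ≤ -(T.B x d / T.B l d) := by
        have e : -(T.B x d / T.B l d) = -(T.B x d * T.B l d) / T.B l d ^ 2 := by
          field_simp
        rw [e]
        apply div_nonneg _ hm2.le
        linarith
      linarith
    · have e : k + (t₀ - T.B x d / T.B l d) • l = x - (T.B x d / T.B l d) • l := by
        rw [hx]
        module
      rw [e, map_sub, map_smul, LinearMap.sub_apply, LinearMap.smul_apply, smul_eq_mul]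
      field_simp
      ring
  have hxreg : T.Regular P x := by
    refine ⟨hxP t₀, ?_, fun d hd hdP => ?_⟩
    · rw [hxx]
      positivity
    · by_cases hld : T.B l d = 0
      · have : T.B x d = T.B k d := by
          rw [hx]
          simp only [map_add, LinearMap.add_apply, map_smul, LinearMap.smul_apply, smul_eq_mul,
            hld]
          ring
        rw [this]
        exact hk d ⟨hd, hdP⟩
      · intro h
        have := hsign d hd hdP hld
        rw [h, zero_mul] at this
        exact lt_irrefl _ this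
  obtain ⟨M, hMP, hxM⟩ := hT.surjective P x hP2 hPp hxreg
  have hch := (hT.kahler M x hxM).2
  rw [hMP] at hch
  have hyl : ∀ y ∈ T.kahler M, 0 < T.B y l := by
    intro y hy
    obtain ⟨hyr, hyc⟩ := (hch y).1 hy
    exact pos_of_pos hT hP2 hPp hxreg.1 hxreg.2.1 hyr.1 hyr.2.1 hlP hq
      (by rw [hx, hxl]; exact hkl) hyc.1
  refine ⟨M, hMP, ?_⟩
  intro y hy
  obtain ⟨hyr, hyc⟩ := (hch y).1 hy
  have hy1 := hyl y hy
  refine (hch _).2 ⟨⟨?_, ?_, ?_⟩, ?_, ?_⟩
  · intro p hp
    rw [map_add, hlP p hp, hyr.1 p hp, add_zero]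
  · have e : T.B (l + y) (l + y) = T.B y y + 2 * T.B y l := by
      simp only [map_add, LinearMap.add_apply, hq, hT.symm l y]
      ring
    rw [e]
    have := hyr.2.1
    linarith
  · intro d hd hdP
    rw [map_add, LinearMap.add_apply]
    by_cases hld : T.B l d = 0
    · rw [hld, zero_add]
      exact hyr.2.2 d hd hdP
    · have h1 := hsign d hd hdP hld
      have h2 := hyc.2 d hd hdP
      intro h
      have h3 : T.B y d = -T.B l d := by linarith
      rw [h3] at h2
      nlinarith
  · rw [map_add]
    have : 0 < T.B x l := by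
      rw [hx, hxl]
      exact hkl
    have := hyc.1
    linarith
  · intro d hd hdP
    have e : T.B (l + y) d = T.B l d + T.B y d := by rw [map_add, LinearMap.add_apply]
    rw [e, mul_add]
    have h2 := hyc.2 d hd hdP
    by_cases hld : T.B l d = 0
    · rw [hld, mul_zero, zero_add]
      exact h2
    · have h1 := hsign d hd hdP hld
      linarith

end Pool.Agent.Q34.HF
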